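import Pool.Agent.Lib.MP_cc9ac0_pr.Main

set_option autoImplicit false

open MeasureTheory ProbabilityTheory Set Pool.Agent.Lib.MP_cc9ac0_pr

/-- Q1 holds: every symmetric kernel is a weak limit of return maps of polygonal mirrors in the
class `M₂` lying in the strips `-1/n < x₂ < 0`, all rays outside a set of measure at most `1/n`
being reflected exactly once. -/
theorem Pool.Agent.Results.MP_cc9ac0_pr.OneReflection.result :
    ∀ P : Kernel (ℝ × ℝ) ℝ, IsMarkovKernel P →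
      (∀ a ∈ rayD, P a (Ioo (-Real.pi) 0)ᶜ = 0) → SymmKernel P →
      ∃ (M : ℕ → Set ℂ) (K : ℕ → ℝ × ℝ → ℝ × ℝ),
        (∀ n, PolyM1 (M n) ∧ Measurable (K n) ∧
          (∀ᵐ a ∂rayMeas, ∃ m, Returns (M n) m a (K n a))) ∧
        WeakConv (fun n => detMeas (K n)) (kerMeas P) ∧
        (∀ n : ℕ, 0 < n → ∀ z ∈ M n, -(1 / (n : ℝ)) < z.im ∧ z.im < 0) ∧
        (∀ n : ℕ, 0 < n → ∃ E : Set (ℝ × ℝ), MeasurableSet E ∧ E ⊆ rayD ∧
          rayMeas E ≤ ENNReal.ofReal (1 / (n : ℝ)) ∧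
          ∀ a ∈ rayD, a ∉ E → Returns (M n) 1 a (K n a)) :=
  fun P _ hP hs => main P hP hs
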